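import Pool.Agent.H93.GS.Defs

/-!
# Theorem (G), MP_c59857_nt, section 3b: windows with a small gap (targets)

`J` and `En` are the functional and the energy with the soft threshold `th`. All sums `g` are
near optimal only; no optimum is used. A window is regular if the sliding mean of the energies of
the short pieces is not much larger than its own energy.
-/

set_option autoImplicit false

namespace Pool.Agent.H56.G3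

open Finset Pool.Agent.H6.N4D Pool.Agent.H93.EB Pool.Agent.H93.GS

/-- the sliding mean over the starting points `n, ..., n + N - 1` -/
noncomputable def sl (N n : ℕ) (F : ℕ → ℝ) : ℝ := (∑ j ∈ range N, F (n + j)) / N

/-- the values of `lam` are at most one in absolute value -/
def B1 (lam : ℕ → ℝ) : Prop := ∀ n, |lam n| ≤ 1

/-- the integrand of `J` -/
noncomputable def jj (lam : ℕ → ℝ) (g : Ex) (m : ℕ) : ℝ :=
  2 * lam m * (g.f m).re - ‖g.f m‖ ^ 2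

/-- the defect of `g` -/
noncomputable def df (th : ℝ) (lam : ℕ → ℝ) (q N n : ℕ) (g : Ex) : ℝ :=
  En th lam q N n - J th lam q N n g

/-- the correlation of a function with a frequency on the window -/
noncomputable def cf (N n : ℕ) (F : ℕ → ℂ) (β : ℝ) : ℂ :=
  (∑ m ∈ Ioc n (n + N), F m * ee (-(β * m))) / N

/-- RB. Basic bounds for the functional and the energy. -/
def T_RB : Prop := ∀ (th : ℝ) (lam : ℕ → ℝ) (q N n : ℕ), 0 < th → B1 lam → 1 ≤ q → 1 ≤ N →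
  BddAbove (Set.range (J th lam q N n)) ∧ 0 ≤ En th lam q N n ∧
  En th lam q N n ≤ 1 + q / N ∧ (∀ g, 0 ≤ df th lam q N n g) ∧
  (∀ ε : ℝ, 0 < ε → ∃ g : Ex, df th lam q N n g ≤ ε ∧ -ε ≤ J th lam q N n g) ∧
  (∀ g : Ex, q ≤ N → -1 ≤ J th lam q N n g → g.nm ≤ 2 / th) ∧
  (∀ (g : Ex) (m : ℕ), ‖g.f m‖ ≤ g.nm ∧ |jj lam g m| ≤ 2 * g.nm + g.nm ^ 2)

/-- RM. Two near optimal sums are close. -/
def T_RM : Prop := ∀ (th : ℝ) (lam : ℕ → ℝ) (q N n : ℕ) (g h : Ex), 0 < th → B1 lam → 1 ≤ q →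
  1 ≤ N → d2 q N n g h ≤ 2 * (df th lam q N n g + df th lam q N n h)

/-- RS. The functional of a window and the energies of the sliding pieces. -/
def T_RS : Prop := ∀ (th : ℝ) (lam : ℕ → ℝ) (M N n : ℕ) (g : Ex), 0 < th → B1 lam → 1 ≤ M →
  1 ≤ N → N * J th lam 1 N n g ≤ ∑ j ∈ range N, En th lam 1 M (n + j) +
    2 * M * (2 * g.nm + g.nm ^ 2)

/-- RN. The energy does not increase with the length. -/
def T_RN : Prop := ∀ (th : ℝ) (lam : ℕ → ℝ) (M N n : ℕ), 0 < th → th ≤ 1 → B1 lam → 1 ≤ M →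
  1 ≤ N → En th lam 1 N n ≤ sl N n (En th lam 1 M) + 16 / th ^ 2 * (M / N)

/-- RL. The energy changes slowly with the window. -/
def T_RL : Prop := ∀ (th : ℝ) (lam : ℕ → ℝ) (N n : ℕ), 0 < th → th ≤ 1 → B1 lam → 1 ≤ N →
  |En th lam 1 (N + 1) n - En th lam 1 N n| ≤ 20 / th ^ 2 / N ∧
  |En th lam 1 N (n + 1) - En th lam 1 N n| ≤ 20 / th ^ 2 / N

/-- RU. On a regular window a near optimal sum is near optimal on all the parts. -/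
def T_RU : Prop := ∀ (th : ℝ) (lam : ℕ → ℝ) (κ κ' : ℝ) (M N n N' n' : ℕ) (g : Ex), 0 < th →
  th ≤ 1 → B1 lam → 1 ≤ M → 1 ≤ N' → κ' ≤ 1 → n ≤ n' → n' + N' ≤ n + N →
  sl N n (En th lam 1 M) - En th lam 1 N n ≤ κ → df th lam 1 N n g ≤ κ' →
  N' * df th lam 1 N' n' g ≤ N * (κ + κ') + 50 / th ^ 2 * M

/-- RO. Overlapping parts of a regular window. -/
def T_RO : Prop := ∀ (th : ℝ) (lam : ℕ → ℝ) (κ : ℝ) (M N n N₁ n₁ N₂ n₂ N₃ n₃ : ℕ)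
  (g₁ g₂ : Ex), 0 < th → th ≤ 1 → B1 lam → 1 ≤ M → 0 < κ → κ ≤ 1 →
  n ≤ n₁ → n₁ + N₁ ≤ n + N → n ≤ n₂ → n₂ + N₂ ≤ n + N → n₁ ≤ n₃ → n₃ + N₃ ≤ n₁ + N₁ →
  n₂ ≤ n₃ → n₃ + N₃ ≤ n₂ + N₂ → 1 ≤ N₃ → N ≤ 8 * N₃ →
  sl N n (En th lam 1 M) - En th lam 1 N n ≤ κ → df th lam 1 N₁ n₁ g₁ ≤ κ →
  df th lam 1 N₂ n₂ g₂ ≤ κ → d2 1 N₃ n₃ g₁ g₂ ≤ 2000 * κ + 40000 / th ^ 2 * (M / N)

/-- RG. Sums of exponentials over windows. -/
def T_RG : Prop := ∀ (β : ℝ) (N n : ℕ), 0 < nd β →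
  ‖∑ m ∈ Ioc n (n + N), ee (β * m)‖ ≤ 1 / (2 * nd β)

/-- RA. A near optimal sum whose atoms are all seen by the residual. -/
def T_RA : Prop := ∀ (th δ : ℝ), 0 < th → th ≤ 1 → 0 < δ → ∀ (lam : ℕ → ℝ) (N n : ℕ),
  B1 lam → 1 ≤ N → ∃ (g : Ex) (F : ℕ → ℂ), df th lam 1 N n g ≤ δ ∧
    (∑ m ∈ Ioc n (n + N), ‖F m‖ ^ 2) / N ≤ 3 ∧
    ∀ i < g.k, g.c i ≠ 0 → th / 2 ≤ ‖cf N n F (g.a i)‖

/-- RC. The number of the separated frequencies which are seen by a function. -/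
def T_RC : Prop := ∀ (th : ℝ) (F : ℕ → ℂ) (N n r : ℕ) (b : ℕ → ℝ), 0 < th → th ≤ 1 → 1 ≤ N →
  (∑ m ∈ Ioc n (n + N), ‖F m‖ ^ 2) / N ≤ 3 →
  (∀ s < r, ∀ s' < r, s ≠ s' → 16 / th ^ 2 / N ≤ nd (b s - b s')) →
  (∀ s < r, th / 2 ≤ ‖cf N n F (b s)‖) → (r : ℝ) ≤ 24 / th ^ 2

/-- RE. If the phases are aligned at all the pieces then they rotate together. -/
def T_RE : Prop := ∀ (s : Finset ℕ) (c : ℕ → ℂ) (a : ℕ → ℝ) (P ℓ n : ℕ) (σ : ℝ), s.Nonempty →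
  1 ≤ P → 0 ≤ σ →
  (∀ j < P, ∑ i ∈ s, ‖c i‖ - σ ≤ ‖∑ i ∈ s, c i * ee (a i * ((n + j * ℓ : ℕ) : ℝ))‖) →
  ∃ i₀ ∈ s, ∑ j ∈ range P, ∑ i ∈ s, ‖c i‖ * ‖ee ((a i - a i₀) * (j * ℓ : ℕ)) - 1‖ ^ 2 ≤
    32 * σ * P

/-- `g` is covered by the points `b 0, ..., b (l - 1)` with precision `r` -/
def Cv (g : Ex) (l : ℕ) (b : ℕ → ℝ) (r : ℝ) : Prop :=
  ∀ i < g.k, g.c i ≠ 0 → ∃ s < l, nd (g.a i - b s) ≤ r

/-- RP. On a regular window the atoms of a cell are aligned at all the pieces. -/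
def T_RP : Prop := ∀ (th Lam σ : ℝ) (r₀ P : ℕ), 0 < th → th ≤ 1 → 0 < Lam → 0 < σ → 1 ≤ P →
  100 * Lam / (th ^ 3 * σ) ≤ P → ∃ (δ : ℝ) (P₀ : ℕ), 0 < δ ∧
  ∀ (lam : ℕ → ℝ) (M N n l : ℕ) (g : Ex) (b : ℕ → ℝ) (τ : ℕ → ℕ), B1 lam → 1 ≤ M →
    P₀ * M ≤ N → sl N n (En th lam 1 M) - En th lam 1 N n ≤ δ → df th lam 1 N n g ≤ δ →
    l ≤ r₀ → (∀ i < g.k, g.c i ≠ 0 → τ i < l ∧ nd (g.a i - b (τ i)) ≤ Lam / N) →
    ∀ s < l, ∀ j < P,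
      ∑ i ∈ (range g.k).filter (fun i => g.c i ≠ 0 ∧ τ i = s), ‖g.c i‖ - σ ≤
        ‖∑ i ∈ (range g.k).filter (fun i => g.c i ≠ 0 ∧ τ i = s),
          g.c i * ee ((g.a i - b s) * ((n + j * (N / P) : ℕ) : ℝ))‖

/-- RX. Merging the atoms of all cells. -/
def T_RX : Prop := ∀ (th Lam κ : ℝ) (r₀ : ℕ), 0 < th → th ≤ 1 → 0 < Lam → 0 < κ →
  ∃ (δ : ℝ) (P₀ : ℕ), 0 < δ ∧ ∀ (lam : ℕ → ℝ) (M N n l : ℕ) (g : Ex) (b : ℕ → ℝ), B1 lam →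
    1 ≤ M → P₀ * M ≤ N → sl N n (En th lam 1 M) - En th lam 1 N n ≤ δ →
    df th lam 1 N n g ≤ δ → l ≤ r₀ → Cv g l b (Lam / N) →
    ∃ g' : Ex, g'.k = l ∧ (∀ s < l, nd (g'.a s - b s) ≤ Lam / N) ∧ df th lam 1 N n g' ≤ κ

/-- the number of the atoms of a regular window -/
noncomputable def r0 (th : ℝ) : ℕ := ⌈24 / th ^ 2⌉₊

/-- the frequencies are pairwise separated -/
def Sp (g : Ex) (r : ℝ) : Prop := ∀ i < g.k, ∀ j < g.k, i ≠ j → r ≤ nd (g.a i - g.a j)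

/-- REG. Structure of regular windows: a near optimal sum with few separated frequencies. -/
def T_REG : Prop := ∀ (th Lam κ : ℝ), 0 < th → th ≤ 1 → 0 < Lam → 0 < κ →
  ∃ (δ : ℝ) (P₀ : ℕ), 0 < δ ∧ ∀ (lam : ℕ → ℝ) (M N n : ℕ), B1 lam → 1 ≤ M → P₀ * M ≤ N →
    sl N n (En th lam 1 M) - En th lam 1 N n ≤ δ →
    ∃ g : Ex, g.k ≤ r0 th ∧ Sp g (Lam / N) ∧ df th lam 1 N n g ≤ κ

end Pool.Agent.H56.G3
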