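import Pool.Agent.H56.G3.TI

/-!
# Row BL of section 3b of theorem (G)
-/

set_option autoImplicit false

namespace Pool.Agent.H56.G3

open Finset Pool.Agent.H6.N4D Pool.Agent.H93.EB Pool.Agent.H93.GS

theorem pf_BL (hRB : T_RB) : T_BL := by
  intro th κ c lam N n g hth hth1 hB hN hc hdf hκ hc0
  by_contra hcon
  push Not at hcon
  have hNp : (0 : ℝ) < N := by exact_mod_cast hN
  have h1 : c / 2 ≤ J th lam 1 N n g := by
    unfold df at hdf
    linarith
  have hnm0 : 0 ≤ g.nm := sum_nonneg fun _ _ => norm_nonneg _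
  have h2 : J th lam 1 N n g ≤ 2 * g.nm := by
    unfold J ar
    have h1 : (Ioc n (n + N)).filter (fun m => 1 ∣ m) = Ioc n (n + N) := by
      apply filter_true_of_mem
      intro m _
      exact one_dvd m
    rw [h1, Nat.cast_one, mul_one]
    have h3 : ∑ m ∈ Ioc n (n + N), (2 * lam m * (g.f m).re - ‖g.f m‖ ^ 2) ≤
        ∑ m ∈ Ioc n (n + N), 2 * g.nm := by
      apply sum_le_sum
      intro m _
      have b1 := ((hRB th lam 1 N n hth hB le_rfl hN).2.2.2.2.2.2 g m).1
      have b2 := Complex.abs_re_le_norm (g.f m)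
      have b3 : lam m * (g.f m).re ≤ |lam m| * |(g.f m).re| := by
        rw [← abs_mul]; exact le_abs_self _
      have b4 : |lam m| * |(g.f m).re| ≤ 1 * |(g.f m).re| :=
        mul_le_mul_of_nonneg_right (hB m) (abs_nonneg _)
      nlinarith [sq_nonneg ‖g.f m‖]
    rw [sum_const, Nat.card_Ioc, nsmul_eq_mul, Nat.add_sub_cancel_left] at h3
    have h4 : (∑ m ∈ Ioc n (n + N), (2 * lam m * (g.f m).re - ‖g.f m‖ ^ 2)) / N ≤ 2 * g.nm := by
      rw [div_le_iff₀ hNp]
      linarith
    have h5 : 0 ≤ 2 * th * g.nm := by positivity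
    linarith
  have h3 : g.nm ≤ c / 8 := by
    rcases Nat.eq_zero_or_pos g.k with hk | hk
    · unfold Ex.nm
      rw [hk, range_zero, sum_empty]
      positivity
    · have hkp : (0 : ℝ) < g.k := by exact_mod_cast hk
      have h4 : g.nm ≤ ∑ i ∈ range g.k, c / (8 * g.k) :=
        sum_le_sum fun i hi => (hcon i (mem_range.1 hi)).le
      rw [sum_const, card_range, nsmul_eq_mul] at h4
      refine h4.trans (le_of_eq ?_)
      field_simp
  linarith

end Pool.Agent.H56.G3
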