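import Pool.Agent.H56.G3.TR
import Pool.Agent.H95.TP.TRG

/-!
# Row RG of section 3b of theorem (G)
-/

set_option autoImplicit false

namespace Pool.Agent.H56.G3

open Finset Pool.Agent.H6.N4D Pool.Agent.H93.EB Pool.Agent.H93.GS

theorem pf_RG : T_RG := by
  intro β N n hβ
  have h1 : ∑ m ∈ Ioc n (n + N), ee (β * m) = ee (β * (n + 1)) * ∑ j ∈ range N, ee β ^ j := by
    rw [show Ioc n (n + N) = Ico (n + 1) (n + 1 + N) by ext x; simp only [mem_Ioc, mem_Ico]; omega,
      Finset.sum_Ico_eq_sum_range, mul_sum]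
    rw [show n + 1 + N - (n + 1) = N by omega]
    apply sum_congr rfl
    intro j _
    rw [← Pool.Agent.H95.TP.ee_nat, ← ee_add]
    congr 1
    push_cast
    ring
  rw [h1, norm_mul, norm_ee, one_mul]
  exact Pool.Agent.H95.TP.geo_le β N hβ

end Pool.Agent.H56.G3
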