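import Pool.Agent.H56.G3.TR

/-!
# Row RO of section 3b of theorem (G)
-/

set_option autoImplicit false

namespace Pool.Agent.H56.G3

open Finset Pool.Agent.H6.N4D Pool.Agent.H93.EB Pool.Agent.H93.GS

theorem d2_eq (N n : ℕ) (g h : Ex) :
    d2 1 N n g h = (∑ m ∈ Ioc n (n + N), ‖g.f m - h.f m‖ ^ 2) / N := by
  unfold d2 ar
  have h1 : (Ioc n (n + N)).filter (fun m => 1 ∣ m) = Ioc n (n + N) := by
    apply filter_true_of_mem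
    intro m _
    exact one_dvd m
  rw [h1, Nat.cast_one, mul_one]

theorem d2_sub (N n N' n' : ℕ) (g h : Ex) (h1 : n ≤ n') (h2 : n' + N' ≤ n + N) (h3 : 1 ≤ N')
    (h4 : N ≤ 8 * N') : d2 1 N' n' g h ≤ 8 * d2 1 N n g h := by
  rw [d2_eq, d2_eq]
  have hN' : (0 : ℝ) < N' := by exact_mod_cast h3
  have hN : (0 : ℝ) < N := by
    have : 1 ≤ N := by omega
    exact_mod_cast this
  have h5 : ∑ m ∈ Ioc n' (n' + N'), ‖g.f m - h.f m‖ ^ 2 ≤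
      ∑ m ∈ Ioc n (n + N), ‖g.f m - h.f m‖ ^ 2 := by
    apply sum_le_sum_of_subset_of_nonneg
    · intro m hm
      rw [mem_Ioc] at hm ⊢
      omega
    · intro m _ _
      positivity
  have h6 : (N : ℝ) ≤ 8 * N' := by exact_mod_cast h4
  have h7 : 0 ≤ ∑ m ∈ Ioc n (n + N), ‖g.f m - h.f m‖ ^ 2 :=
    sum_nonneg fun m _ => by positivity
  rw [div_le_iff₀ hN']
  have h8 : 8 * ((∑ m ∈ Ioc n (n + N), ‖g.f m - h.f m‖ ^ 2) / N) * N' =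
      (∑ m ∈ Ioc n (n + N), ‖g.f m - h.f m‖ ^ 2) * (8 * N' / N) := by ring
  rw [h8]
  have h9 : 1 ≤ 8 * (N' : ℝ) / N := by rw [le_div_iff₀ hN]; linarith
  nlinarith

theorem ro_side (hRM : T_RM) (hRU : T_RU) (th : ℝ) (lam : ℕ → ℝ) (κ : ℝ)
    (M N n N₁ n₁ N₃ n₃ : ℕ) (g h : Ex) (hth : 0 < th) (hth1 : th ≤ 1) (hB : B1 lam)
    (hM : 1 ≤ M) (hκ0 : 0 < κ) (hκ1 : κ ≤ 1) (h1 : n ≤ n₁) (h2 : n₁ + N₁ ≤ n + N)
    (h3 : n₁ ≤ n₃) (h4 : n₃ + N₃ ≤ n₁ + N₁) (h5 : 1 ≤ N₃) (h6 : N ≤ 8 * N₃)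
    (hgap : sl N n (En th lam 1 M) - En th lam 1 N n ≤ κ) (hg : df th lam 1 N₁ n₁ g ≤ κ)
    (hh : df th lam 1 N n h ≤ κ) :
    d2 1 N₃ n₃ g h ≤ 272 * κ + 6400 / th ^ 2 * (M / N) := by
  have hN₁ : 1 ≤ N₁ := by omega
  have a1 := hRU th lam κ κ M N n N₁ n₁ h hth hth1 hB hM hN₁ hκ1 h1 h2 hgap hh
  have a2 := hRM th lam 1 N₁ n₁ g h hth hB le_rfl hN₁
  have a3 := d2_sub N₁ n₁ N₃ n₃ g h h3 h4 h5 (by omega)
  have hN₁p : (0 : ℝ) < N₁ := by exact_mod_cast hN₁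
  have hNp : (0 : ℝ) < N := by
    have : 1 ≤ N := by omega
    exact_mod_cast this
  have hle : (N : ℝ) ≤ 8 * N₁ := by
    have : N ≤ 8 * N₁ := by omega
    exact_mod_cast this
  have hth2 : 0 < th ^ 2 := by positivity
  have a4 : df th lam 1 N₁ n₁ h ≤ 16 * κ + 400 / th ^ 2 * (M / N) := by
    have b1 : df th lam 1 N₁ n₁ h ≤ (N * (κ + κ) + 50 / th ^ 2 * M) / N₁ := by
      rw [le_div_iff₀ hN₁p]
      linarith
    refine b1.trans ?_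
    rw [div_le_iff₀ hN₁p]
    have b2 : (16 * κ + 400 / th ^ 2 * (M / N)) * N₁ =
        (2 * κ * N + 50 / th ^ 2 * M) * (8 * N₁ / N) := by
      field_simp
      ring
    rw [b2]
    have b3 : 1 ≤ 8 * (N₁ : ℝ) / N := by rw [le_div_iff₀ hNp]; linarith
    have b4 : 0 ≤ 2 * κ * N + 50 / th ^ 2 * M := by positivity
    nlinarith
  have a5 : 0 ≤ (M : ℝ) / N := by positivity
  have a6 : 400 / th ^ 2 * ((M : ℝ) / N) * 16 = 6400 / th ^ 2 * (M / N) := by ring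
  nlinarith

theorem pf_RO (hRB : T_RB) (hRM : T_RM) (hRU : T_RU) : T_RO := by
  intro th lam κ M N n N₁ n₁ N₂ n₂ N₃ n₃ g₁ g₂ hth hth1 hB hM hκ0 hκ1 h1 h2 h3 h4 h5 h6 h7 h8
    hN₃ hN8 hgap hg1 hg2
  have hN : 1 ≤ N := by omega
  obtain ⟨h, hh, -⟩ := (hRB th lam 1 N n hth hB le_rfl hN).2.2.2.2.1 κ hκ0
  have a1 := ro_side hRM hRU th lam κ M N n N₁ n₁ N₃ n₃ g₁ h hth hth1 hB hM hκ0 hκ1 h1 h2 h5 h6
    hN₃ hN8 hgap hg1 hh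
  have a2 := ro_side hRM hRU th lam κ M N n N₂ n₂ N₃ n₃ g₂ h hth hth1 hB hM hκ0 hκ1 h3 h4 h7 h8
    hN₃ hN8 hgap hg2 hh
  have hN₃p : (0 : ℝ) < N₃ := by exact_mod_cast hN₃
  have a3 : d2 1 N₃ n₃ g₁ g₂ ≤ 2 * d2 1 N₃ n₃ g₁ h + 2 * d2 1 N₃ n₃ g₂ h := by
    rw [d2_eq, d2_eq, d2_eq, ← mul_div_assoc, ← mul_div_assoc, ← add_div]
    apply div_le_div_of_nonneg_right _ hN₃p.le
    rw [mul_sum, mul_sum, ← sum_add_distrib]
    apply sum_le_sum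
    intro m _
    have b1 : ‖g₁.f m - g₂.f m‖ ≤ ‖g₁.f m - h.f m‖ + ‖g₂.f m - h.f m‖ := by
      rw [← norm_neg (g₂.f m - h.f m), neg_sub]
      calc ‖g₁.f m - g₂.f m‖ = ‖(g₁.f m - h.f m) + (h.f m - g₂.f m)‖ := by congr 1; ring
        _ ≤ _ := norm_add_le _ _
    have b2 := norm_nonneg (g₁.f m - g₂.f m)
    nlinarith [sq_nonneg (‖g₁.f m - h.f m‖ - ‖g₂.f m - h.f m‖)]
  have hth2 : 0 < th ^ 2 := by positivity
  have a4 : 0 ≤ 1 / th ^ 2 * ((M : ℝ) / N) := by positivity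
  have a5 : 6400 / th ^ 2 * ((M : ℝ) / N) = 6400 * (1 / th ^ 2 * (M / N)) := by ring
  have a6 : 40000 / th ^ 2 * ((M : ℝ) / N) = 40000 * (1 / th ^ 2 * (M / N)) := by ring
  rw [a5] at a1 a2
  rw [a6]
  linarith

end Pool.Agent.H56.G3
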