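import Pool.Agent.H6.N4D.All
import Pool.Agent.H38.EL.BAB
import Pool.Agent.H52.G3.RB
import Pool.Agent.H14.G3.RM
import Pool.Agent.H14.G3.RS
import Pool.Agent.H1.G3.RN
import Pool.Agent.H30.G3.RL
import Pool.Agent.H91.G3.RU
import Pool.Agent.H56.G3.RO
import Pool.Agent.H56.G3.RG
import Pool.Agent.H36.G3.RA
import Pool.Agent.H17.G3.RC
import Pool.Agent.H23.G3.RE
import Pool.Agent.H23.G3.RP
import Pool.Agent.H89.G3.RX
import Pool.Agent.H30.G3.REG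
import Pool.Agent.H46.G3.WQ
import Pool.Agent.H86.G3.SF
import Pool.Agent.H61.G3.SC
import Pool.Agent.H14.G3.SN
import Pool.Agent.H14.G3.SV
import Pool.Agent.H18.G3.SZ
import Pool.Agent.H4.G3.SW
import Pool.Agent.H89.G3.SA1
import Pool.Agent.H76.G3.SA2
import Pool.Agent.H7.GS3.SH
import Pool.Agent.H69.G3.SB
import Pool.Agent.H86.G3.IC
import Pool.Agent.H89.G3.II
import Pool.Agent.H69.G3.IF
import Pool.Agent.H31.G3.INV
import Pool.Agent.H63.G3.EW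
import Pool.Agent.H80.G3.EJ
import Pool.Agent.H61.G3.EQ
import Pool.Agent.H51.GS3.EZ
import Pool.Agent.H14.G3.ER
import Pool.Agent.H30.G3.EB
import Pool.Agent.H46.G3.ED
import Pool.Agent.H30.G3.BA
import Pool.Agent.H55.G3.BP
import Pool.Agent.H56.G3.BL
import Pool.Agent.H1.G3.BS
import Pool.Agent.H92.G3.BE
import Pool.Agent.H36.G3.BN
import Pool.Agent.H5.GS3.E3

/-!
# Theorem (G), section 3b: composition

Everything of section 3b except the row SG, which is a hypothesis here.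
-/

set_option autoImplicit false

namespace Pool.Agent.H56.G3.All

open Pool.Agent.H6.N4D Pool.Agent.H56.G3

theorem aSIZ : T_SIZ := Pool.Agent.H6.N4D.All.tSIZ
theorem aTWO : T_TWO := Pool.Agent.H6.N4D.All.tTWO
theorem aWLG : T_WLG := Pool.Agent.H6.N4D.All.tWLG
theorem aBAB : Pool.Agent.H72.EN.T_BAB := Pool.Agent.H38.EL.pf_BAB
theorem aRB : T_RB := Pool.Agent.H52.G3.pf_RB
theorem aRM : T_RM := Pool.Agent.H14.G3.pf_RM aRB
theorem aRS : T_RS := Pool.Agent.H14.G3.pf_RS aRB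
theorem aRN : T_RN := Pool.Agent.H1.G3.pf_RN aRB aRS
theorem aRL : T_RL := Pool.Agent.H30.G3.pf_RL aRB
theorem aRU : T_RU := Pool.Agent.H91.G3.pf_RU aRB aRS aRN
theorem aRO : T_RO := pf_RO aRB aRM aRU
theorem aRG : T_RG := pf_RG
theorem aRA : T_RA := Pool.Agent.H36.G3.pf_RA aRB
theorem aRC : T_RC := Pool.Agent.H17.G3.pf_RC aRG
theorem aRE : T_RE := Pool.Agent.H23.G3.pf_RE
theorem aRP : T_RP := Pool.Agent.H23.G3.pf_RP aRB aRU
theorem aRX : T_RX := Pool.Agent.H89.G3.pf_RX aRB aRE aRP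
theorem aREG : T_REG := Pool.Agent.H30.G3.pf_REG aRA aRC aRX
theorem aWQ : T_WQ := Pool.Agent.H46.G3.pf_WQ
theorem aSF : T_SF := Pool.Agent.H86.G3.pf_SF
theorem aSC : T_SC := Pool.Agent.H61.G3.SC.pf_SC
theorem aSN : T_SN := Pool.Agent.H14.G3.pf_SN aSIZ
theorem aSV : T_SV := Pool.Agent.H14.G3.pf_SV aSF aSC aSN aSIZ
theorem aSZ : T_SZ := Pool.Agent.H18.G3.pf_SZ aRB aBAB
theorem aSW : T_SW := Pool.Agent.H4.G3.pf_SW
theorem aSA1 : T_SA1 := Pool.Agent.H89.G3.pf_SA1 aRB aRN aRL aSF aSC aSN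
theorem aSA2 : T_SA2 := Pool.Agent.H76.G3.pf_SA2 aRB aRN aSF aSV aSN
theorem aSH : T_SH := Pool.Agent.H7.GS3.pf_SH aRO aSN
theorem aSB : T_SB := Pool.Agent.H69.G3.pf_SB aREG aSN
theorem aIC : T_IC := Pool.Agent.H86.G3.pf_IC aRG
theorem aII : T_II := Pool.Agent.H89.G3.pf_II aRG
theorem aIF : T_IF := Pool.Agent.H69.G3.pf_IF
theorem aINV : T_INV := Pool.Agent.H31.G3.pf_INV aRG aIC aII aIF
theorem aEW : T_EW := Pool.Agent.H63.G3.pf_EW aSIZ aSN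
theorem aEJ : T_EJ := Pool.Agent.H80.G3.pf_EJ aRB aEW aSN
theorem aEQ : T_EQ := Pool.Agent.H61.G3.EQ.pf_EQ aRB
theorem aEZ : T_EZ := Pool.Agent.H51.GS3.pf_EZ
theorem aER : T_ER := Pool.Agent.H14.G3.pf_ER aRG
theorem aEB : T_EB := Pool.Agent.H30.G3.pf_EB aTWO
theorem aED : T_ED := Pool.Agent.H46.G3.pf_ED aRB aEW aEJ aEQ aEZ aER aEB aSN aSZ aWQ aBAB
theorem aBA : T_BA := Pool.Agent.H30.G3.pf_BA
theorem aBP : T_BP := Pool.Agent.H55.G3.pf_BP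
theorem aBL : T_BL := pf_BL aRB
theorem aBS : T_BS := Pool.Agent.H1.G3.pf_BS aSH aINV aBA aSN aRB
theorem aBE : T_BE := Pool.Agent.H92.G3.pf_BE aRB aRM aINV aBA aEW aSN
theorem aBN : T_BN := Pool.Agent.H36.G3.pf_BN aRB aSB aED aBA aBP aBL aBS aBE aSN aWLG

theorem e3_of (hSG : T_SG) (hBUN : Pool.Agent.H78.GS.T_BUN) : Pool.Agent.H93.GS.T_E3 :=
  Pool.Agent.H5.GS3.pf_E3 Pool.Agent.H6.N4D.All.gap hBUN hSG aBN

end Pool.Agent.H56.G3.All
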